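import Mathlib
import Pool.Agent.R261.Newton

/-!
# MP_3dabd4_an: condition (Z) forces `c = 0`

If `P` is a nonconstant polynomial with only simple zeros and every zero of `d² P` is a zero of `P`
or of `d P`, `d P = c P + P'`, then `c = 0`.

The Newton map `z - P / (c P + P')` of `P e^{cz}` has a parabolic fixed point at infinity if
`c ≠ 0`; condition (Z) says that its finite critical points are zeros of `P` or poles, hence all its
critical values are fixed points. This contradicts the Leau-Fatou theorem.
-/

set_option autoImplicit false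

open Polynomial

namespace Pool.Agent.Results.MP_3dabd4_an.OnlyZero

/-- The operator `d(P) = c P + P'`. -/
noncomputable def d (c : ℂ) (P : ℂ[X]) : ℂ[X] := C c * P + derivative P

/-- All zeros of `P` are simple. -/
def SimpleZeros (P : ℂ[X]) : Prop := ∀ z, P.eval z = 0 → P.rootMultiplicity z = 1

/-- Condition (Z): every zero of `d²(P)` is a zero of `P` or a zero of `d(P)`. -/
def CondZ (P : ℂ[X]) (c : ℂ) : Prop :=
  ∀ z, (d c (d c P)).eval z = 0 → P.eval z = 0 ∨ (d c P).eval z = 0

theorem result : ∀ (P : ℂ[X]) (c : ℂ), 0 < P.natDegree → SimpleZeros P → CondZ P c → c = 0 := by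
  intro P c hP hs hZ
  by_contra hc
  have hP0 : P ≠ 0 := by rintro rfl; simp at hP
  refine Pool.Agent.R261.Newton.newton_false P (C c) hP (by simpa using hc) (fun z hz h0 => ?_)
    (fun z hz hE => ?_)
  · have h1 := (one_lt_rootMultiplicity_iff_isRoot hP0 (t := z)).2 ⟨hz, h0⟩
    have h2 := hs z hz
    omega
  · rcases hZ z hE with h | h
    · exact h
    · exact absurd h hz

end Pool.Agent.Results.MP_3dabd4_an.OnlyZero
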